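import Pool.Agent.BEW.StmtsF
import Pool.Agent.Helper28_BEW.SLO
import Pool.Agent.Helper88_BEW.LNF
import Pool.Agent.Helper39_BEL.GRQ
import Pool.Agent.Helper47_BEL.NEM
import Pool.Agent.Helper92_BEL.MLP
import Pool.Agent.Helper17_BEL.GPK

set_option autoImplicit false

/-!
# Row FRC: the flow is `C¹` in the energy space (helper25)
-/

namespace Pool.Agent.BEW.H25F

open Set Filter Topology MeasureTheory
open scoped InnerProductSpace ENNReal NNReal
open Pool.Agent.BE01 Pool.Agent.BEL Pool.Agent.BEG Pool.Agent.BEH Pool.Agent.BER Pool.Agent.BEW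

noncomputable section

/-- The slope is a continuous function of two variables. -/
lemma slp_cont {g g' : ℝ → ℝ} (hg : ∀ s, HasDerivAt g (g' s) s) (hc : Continuous g') :
    Continuous (fun p : ℝ × ℝ => slp g g' p.1 p.2) := by
  have e : ∀ x y : ℝ, slp g g' x y = ∫ s in (0 : ℝ)..1, g' (y + s * (x - y)) := by
    intro x y
    unfold slp
    split_ifs with h
    · subst h
      simp
    · have hxy : x - y ≠ 0 := sub_ne_zero.2 h
      have h1 : ∀ s ∈ uIcc (0 : ℝ) 1, HasDerivAt (fun s => g (y + s * (x - y)))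
          (g' (y + s * (x - y)) * (x - y)) s := by
        intro s _
        have h2 : HasDerivAt (fun s => y + s * (x - y)) (x - y) s := by
          have h3 := ((hasDerivAt_id s).mul_const (x - y)).const_add y
          simpa using h3
        exact (hg _).comp s h2
      have h2 := intervalIntegral.integral_eq_sub_of_hasDerivAt h1
        ((Continuous.intervalIntegrable (by fun_prop) _ _))
      rw [intervalIntegral.integral_mul_const] at h2
      rw [div_eq_iff hxy, h2]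
      simp
  simp_rw [e]
  exact intervalIntegral.continuous_parametric_intervalIntegral_of_continuous' (by fun_prop) 0 1

/-- Gronwall, forward. -/
lemma gron1 {N N' ρ : ℝ → ℝ} {A : ℝ} (hA : 0 ≤ A) (hN : ∀ t, HasDerivAt N (N' t) t)
    (hρ : Continuous ρ) (h0 : ∀ t, 0 ≤ ρ t) (hb : ∀ t, N' t ≤ A * N t + ρ t) {t : ℝ} (ht : 0 ≤ t) :
    N t ≤ Real.exp (A * t) * (N 0 + ∫ s in (0 : ℝ)..t, ρ s) := by
  have hd : ∀ s, HasDerivAt (fun s => Real.exp (-(A * s)) * N s - ∫ r in (0 : ℝ)..s, ρ r)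
      (Real.exp (-(A * s)) * (-A) * N s + Real.exp (-(A * s)) * N' s - ρ s) s := by
    intro s
    have h1 : HasDerivAt (fun s => Real.exp (-(A * s))) (Real.exp (-(A * s)) * (-A)) s := by
      have h2 : HasDerivAt (fun s => -(A * s)) (-A) s := by
        have h3 := ((hasDerivAt_id' s).const_mul A).neg
        rw [mul_one] at h3
        exact h3
      exact h2.exp
    have h2 : HasDerivAt (fun s => ∫ r in (0 : ℝ)..s, ρ r) (ρ s) s :=
      intervalIntegral.integral_hasDerivAt_right (hρ.intervalIntegrable _ _)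
        (hρ.stronglyMeasurableAtFilter _ _) hρ.continuousAt
    exact (h1.mul (hN s)).sub h2
  have hanti : AntitoneOn (fun s => Real.exp (-(A * s)) * N s - ∫ r in (0 : ℝ)..s, ρ r)
      (Ici 0) := by
    apply antitoneOn_of_deriv_nonpos (convex_Ici 0)
    · exact fun s _ => (hd s).continuousAt.continuousWithinAt
    · exact fun s _ => (hd s).differentiableAt.differentiableWithinAt
    · intro s hs
      rw [interior_Ici] at hs
      rw [(hd s).deriv]
      have h1 : Real.exp (-(A * s)) ≤ 1 := by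
        rw [Real.exp_le_one_iff]
        have := mul_nonneg hA (le_of_lt hs)
        linarith
      have h2 := mul_le_mul_of_nonneg_left (hb s) (Real.exp_pos (-(A * s))).le
      have h3 := mul_le_mul_of_nonneg_right h1 (h0 s)
      nlinarith
  have h1 := hanti (mem_Ici.2 le_rfl) (mem_Ici.2 ht) ht
  simp only [mul_zero, neg_zero, Real.exp_zero, one_mul, intervalIntegral.integral_same,
    sub_zero] at h1
  have h2 : Real.exp (-(A * t)) * N t ≤ N 0 + ∫ s in (0 : ℝ)..t, ρ s := by linarith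
  have h3 := mul_le_mul_of_nonneg_left h2 (Real.exp_pos (A * t)).le
  rw [← mul_assoc, ← Real.exp_add, add_neg_cancel, Real.exp_zero, one_mul] at h3
  exact h3

/-- Gronwall, in both directions. -/
lemma gron2 {N N' ρ : ℝ → ℝ} {A : ℝ} (hA : 0 ≤ A) (hN : ∀ t, HasDerivAt N (N' t) t)
    (hρ : Continuous ρ) (h0 : ∀ t, 0 ≤ ρ t) (hb : ∀ t, |N' t| ≤ A * N t + ρ t) (t : ℝ) :
    N t ≤ Real.exp (A * |t|) * (N 0 + |∫ s in (0 : ℝ)..t, ρ s|) := by
  rcases le_total 0 t with ht | ht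
  · rw [abs_of_nonneg ht]
    have h1 := gron1 hA hN hρ h0 (fun s => (le_abs_self _).trans (hb s)) ht
    refine h1.trans (mul_le_mul_of_nonneg_left ?_ (Real.exp_pos _).le)
    linarith [le_abs_self (∫ s in (0 : ℝ)..t, ρ s)]
  · rw [abs_of_nonpos ht]
    have hN2 : ∀ s, HasDerivAt (fun s => N (-s)) (-(N' (-s))) s := by
      intro s
      have h1 := (hN (-s)).comp s (hasDerivAt_neg s)
      rw [mul_neg_one] at h1
      exact h1
    have h1 := gron1 (N := fun s => N (-s)) (ρ := fun s => ρ (-s)) hA hN2 (hρ.comp continuous_neg)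
      (fun s => h0 _) (fun s => by
        have := hb (-s)
        have h2 := neg_abs_le (N' (-s))
        linarith) (neg_nonneg.2 ht)
    simp only [neg_neg, neg_zero] at h1
    refine h1.trans (mul_le_mul_of_nonneg_left ?_ (Real.exp_pos _).le)
    rw [intervalIntegral.integral_comp_neg, neg_neg, neg_zero, intervalIntegral.integral_symm]
    linarith [neg_abs_le (∫ s in (0 : ℝ)..t, ρ s)]

variable {X : Type} [MeasurableSpace X] {μ : Measure X} [IsFiniteMeasure μ]

/-- Continuity of the slope operators in time. -/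
lemma ml_cont {g g' : ℝ → ℝ} {K : ℝ≥0} (hg : ∀ s, HasDerivAt g (g' s) s) (hc : Continuous g')
    (h0 : ∀ s, 0 ≤ g' s) (hK : ∀ s, g' s ≤ K) (v y : ℝ → Lp ℝ 2 μ) (hv : Continuous v)
    (hy : Continuous y) (h : ℝ) :
    Continuous fun t => ml μ (fun x => slp g g' (v (t + h) x) (v t x)) (y t) := by
  rw [continuous_iff_continuousAt]
  intro t0
  have hmeas : ∀ t, Measurable fun x => slp g g' (v (t + h) x) (v t x) := fun t =>
    (Pool.Agent.BEW.H28.slp_meas hg hc).comp ((Lp.stronglyMeasurable _).measurable.prodMk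
      (Lp.stronglyMeasurable _).measurable)
  have hbd : ∀ t x, |slp g g' (v (t + h) x) (v t x)| ≤ (K : ℝ) := fun t x =>
    Pool.Agent.BEW.H28.slp_abs hg h0 hK _ _
  have hfix : Tendsto (fun t => ml μ (fun x => slp g g' (v (t + h) x) (v t x)) (y t0)) (𝓝 t0)
      (𝓝 (ml μ (fun x => slp g g' (v (t0 + h) x) (v t0 x)) (y t0))) := by
    refine tendsto_of_seq_tendsto fun u hu => ?_
    refine tendsto_of_subseq_tendsto fun ns hns => ?_
    have h1 : Tendsto (fun n => v (u (ns n))) atTop (𝓝 (v t0)) :=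
      (hv.tendsto t0).comp (hu.comp hns)
    have h1' : Tendsto (fun n => v (u (ns n) + h)) atTop (𝓝 (v (t0 + h))) :=
      (hv.tendsto (t0 + h)).comp ((hu.comp hns).add_const h)
    obtain ⟨ms, hms, hae⟩ := (tendstoInMeasure_of_tendsto_Lp h1).exists_seq_tendsto_ae
    have h2 : Tendsto (fun n => v (u (ns (ms n)) + h)) atTop (𝓝 (v (t0 + h))) :=
      h1'.comp hms.tendsto_atTop
    obtain ⟨ks, hks, hae2⟩ := (tendstoInMeasure_of_tendsto_Lp h2).exists_seq_tendsto_ae
    refine ⟨fun n => ms (ks n), ?_⟩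
    refine Pool.Agent.BEW.H28.ml_tendsto (M := K) (fun n => hmeas _) (fun n x => hbd _ _)
      (hmeas _) (fun x => hbd _ _) ?_ (y t0)
    filter_upwards [hae, hae2] with x hx hx2
    have h3 := ((slp_cont hg hc).tendsto (v (t0 + h) x, v t0 x)).comp
      (hx2.prodMk_nhds (hx.comp hks.tendsto_atTop))
    exact h3
  have hdiff : Tendsto (fun t => ml μ (fun x => slp g g' (v (t + h) x) (v t x)) (y t - y t0))
      (𝓝 t0) (𝓝 0) := by
    have h1 : Tendsto (fun t => (K : ℝ) * ‖y t - y t0‖) (𝓝 t0) (𝓝 0) := by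
      have h2 : Tendsto (fun t => (K : ℝ) * ‖y t - y t0‖) (𝓝 t0) (𝓝 (K * ‖y t0 - y t0‖)) :=
        ((hy.tendsto t0).sub_const _).norm.const_mul _
      simpa using h2
    refine squeeze_zero_norm (fun t => ?_) h1
    exact (Pool.Agent.BEL.H92.mlp X μ _ K (hmeas t) (hbd t)).2.1 _
  have h3 := hfix.add hdiff
  rw [add_zero] at h3
  refine h3.congr fun t => ?_
  rw [← (Pool.Agent.BEL.H92.mlp X μ _ K (hmeas t) (hbd t)).2.2.1]
  congr 1
  abel

theorem frc (slo : SloStmt) (lnf : LnfStmt) : FrcStmt := by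
  intro X _ μ _ e om W g g' K c Z hW hg hc h0 hK hg0 hZ
  obtain ⟨hW0, hWa, hWn, hWs, hWc, hWcc, hin, hinn⟩ :=
    Pool.Agent.BEL.H39.grq (Lp ℝ 2 μ) ℕ e om W hW
  have hZc : Continuous Z := continuous_iff_continuousAt.2 fun t => (hZ.eq t).continuousAt
  obtain ⟨v, hv⟩ : ∃ v : ℝ → Lp ℝ 2 μ, v = fun t => P2 (W t (Z t)) := ⟨_, rfl⟩
  have hvt : ∀ t, P2 (W t (Z t)) = v t := fun t => by rw [hv]
  have hvc : Continuous v := by
    rw [hv]
    exact P2.continuous.comp (hWcc Z hZc)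
  obtain ⟨s1, s2, s3, s4⟩ := slo X μ g g' K v hg hc h0 hK hg0 hvc
  obtain ⟨V, hV⟩ : ∃ V : KK (Lp ℝ 2 μ), V = inj (c • e 0) := ⟨_, rfl⟩
  have hV1 : P1 V = 0 := by rw [hV, Pool.Agent.BEL.H17.p1_inj]
  have hV2 : P2 V = c • e 0 := by rw [hV, Pool.Agent.BEL.H17.p2_inj]
  have hZ0 : Z 0 = V := by rw [hZ.z0, hV]
  have hZe : ∀ t, HasDerivAt Z (-(W (-t) (inj (nem μ g (v t))))) t := by
    intro t
    have h1 := hZ.eq t
    rw [hvt] at h1
    exact h1
  obtain ⟨a, ha1, ha2⟩ : ∃ a : KK (Lp ℝ 2 μ), P1 a = c • e 0 ∧ P2 a = 0 :=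
    ⟨(WithLp.prodContinuousLinearEquiv 2 ℝ (Lp ℝ 2 μ) (Lp ℝ 2 μ)).symm (c • e 0, 0), rfl, rfl⟩
  have hee : ∀ j, ⟪e j, e 0⟫_ℝ = if j = 0 then (1 : ℝ) else 0 := fun j =>
    orthonormal_iff_ite.mp e.orthonormal j 0
  have hWV : ∀ h, W h V = Real.sin (om 0 * h) • a + Real.cos (om 0 * h) • V := by
    intro h
    apply Pool.Agent.BEL.H17.ext_kk
    · apply Pool.Agent.BEL.H17.ext_coord e
      intro j
      rw [hW.c1, map_add, map_smul, map_smul, ha1, hV1, hV2, smul_zero, add_zero,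
        inner_zero_right, inner_smul_right, inner_smul_right, inner_smul_right, hee]
      by_cases hj : j = 0
      · rw [hj]
        ring
      · rw [if_neg hj]
        ring
    · apply Pool.Agent.BEL.H17.ext_coord e
      intro j
      rw [hW.c2, map_add, map_smul, map_smul, ha2, hV1, hV2, smul_zero, zero_add,
        inner_zero_right, inner_smul_right, inner_smul_right, inner_smul_right, hee]
      by_cases hj : j = 0
      · rw [hj]
        ring
      · rw [if_neg hj]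
        ring
  have hA : HasDerivAt (fun h => W h V) (om 0 • a) 0 := by
    have e1 : (fun h => W h V) = fun h => Real.sin (om 0 * h) • a + Real.cos (om 0 * h) • V :=
      funext hWV
    have h1 : HasDerivAt (fun h : ℝ => om 0 * h) (om 0) 0 := by
      have h2 := (hasDerivAt_id' (0 : ℝ)).const_mul (om 0)
      rw [mul_one] at h2
      exact h2
    have h2 := (h1.sin.smul_const a).add (h1.cos.smul_const V)
    simp only [mul_zero, Real.cos_zero, Real.sin_zero, one_mul, neg_zero, zero_mul, zero_smul,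
      add_zero] at h2
    rw [e1]
    exact h2
  obtain ⟨z0, hz0⟩ : ∃ z0 : KK (Lp ℝ 2 μ), z0 = -(W (-0) (inj (nem μ g (v 0)))) := ⟨_, rfl⟩
  obtain ⟨Y, hY0, hY⟩ := lnf X μ e om W g g' K v (z0 + om 0 • a) hW hg hc h0 hK hg0 hvc
  have hYc : Continuous Y := continuous_iff_continuousAt.2 fun t => (hY t).continuousAt
  obtain ⟨y, hy⟩ : ∃ y : ℝ → Lp ℝ 2 μ, y = fun t => P2 (W t (Y t)) := ⟨_, rfl⟩
  have hyt : ∀ t, P2 (W t (Y t)) = y t := fun t => by rw [hy]
  have hyc : Continuous y := by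
    rw [hy]
    exact P2.continuous.comp (hWcc Y hYc)
  obtain ⟨mh, hmh⟩ : ∃ mh : ℝ → ℝ → Lp ℝ 2 μ → Lp ℝ 2 μ, mh = fun h t u =>
    ml μ (fun x => slp g g' (v (t + h) x) (v t x)) u := ⟨_, rfl⟩
  obtain ⟨m0, hm0⟩ : ∃ m0 : ℝ → Lp ℝ 2 μ → Lp ℝ 2 μ, m0 = fun t u =>
    ml μ (fun x => g' (v t x)) u := ⟨_, rfl⟩
  have hmeas : ∀ h t, Measurable fun x => slp g g' (v (t + h) x) (v t x) := fun h t =>
    (Pool.Agent.BEW.H28.slp_meas hg hc).comp ((Lp.stronglyMeasurable _).measurable.prodMk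
      (Lp.stronglyMeasurable _).measurable)
  have hbd : ∀ h t x, |slp g g' (v (t + h) x) (v t x)| ≤ (K : ℝ) := fun h t x =>
    Pool.Agent.BEW.H28.slp_abs hg h0 hK _ _
  have madd : ∀ h t u w, mh h t (u + w) = mh h t u + mh h t w := by
    intro h t u w
    rw [hmh]
    exact (Pool.Agent.BEL.H92.mlp X μ _ K (hmeas h t) (hbd h t)).2.2.1 u w
  have msmul : ∀ h t (r : ℝ) u, mh h t (r • u) = r • mh h t u := by
    intro h t r u
    rw [hmh]
    exact (Pool.Agent.BEL.H92.mlp X μ _ K (hmeas h t) (hbd h t)).2.2.2.1 r u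
  have mnrm : ∀ h t u, ‖mh h t u‖ ≤ K * ‖u‖ := by
    intro h t u
    rw [hmh]
    exact s2 t h u
  have mnrm0 : ∀ t u, ‖m0 t u‖ ≤ K * ‖u‖ := by
    intro t u
    have h1 : Measurable fun x => g' (v t x) :=
      hc.measurable.comp (Lp.stronglyMeasurable (v t)).measurable
    have h2 : ∀ x, |g' (v t x)| ≤ (K : ℝ) := by
      intro x
      rw [abs_of_nonneg (h0 _)]
      exact hK _
    rw [hm0]
    exact (Pool.Agent.BEL.H92.mlp X μ _ K h1 h2).2.1 u
  have hs1 : ∀ t h, nem μ g (v (t + h)) - nem μ g (v t) = mh h t (v (t + h) - v t) := by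
    intro t h
    rw [hmh]
    exact s1 t h
  have hYe : ∀ t, HasDerivAt Y (-(W (-t) (inj (m0 t (y t))))) t := by
    intro t
    have h1 := hY t
    rw [hyt] at h1
    rw [hm0]
    exact h1
  -- the difference quotients
  obtain ⟨E, hE⟩ : ∃ E : ℝ → ℝ → KK (Lp ℝ 2 μ), E = fun h t => h⁻¹ • (W h (Z (t + h)) - Z t) :=
    ⟨_, rfl⟩
  have hEt : ∀ h t, E h t = h⁻¹ • (W h (Z (t + h)) - Z t) := fun h t => by rw [hE]
  have hWE : ∀ h t, W t (E h t) = h⁻¹ • (W (t + h) (Z (t + h)) - W t (Z t)) := by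
    intro h t
    rw [hEt, map_smul, map_sub, ← hWa]
  have hPE : ∀ h t, P2 (W t (E h t)) = h⁻¹ • (v (t + h) - v t) := by
    intro h t
    rw [hWE, map_smul, map_sub, hvt, hvt]
  have hEd : ∀ h t, HasDerivAt (E h) (-(W (-t) (inj (mh h t (P2 (W t (E h t))))))) t := by
    intro h t
    have d1 : HasDerivAt (fun t => Z (t + h)) (-(W (-(t + h)) (inj (nem μ g (v (t + h)))))) t :=
      (hZe (t + h)).comp_add_const t h
    have d2 : HasDerivAt (fun t => W h (Z (t + h)))
        (W h (-(W (-(t + h)) (inj (nem μ g (v (t + h))))))) t :=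
      (W h).hasFDerivAt.comp_hasDerivAt t d1
    have d3 := (d2.sub (hZe t)).const_smul h⁻¹
    have e1 : h⁻¹ • (W h (-(W (-(t + h)) (inj (nem μ g (v (t + h)))))) -
        -(W (-t) (inj (nem μ g (v t))))) = -(W (-t) (inj (mh h t (P2 (W t (E h t)))))) := by
      rw [hPE, msmul, ← hs1, map_neg, ← hWa, map_smul, map_smul, map_sub, map_sub]
      have e2 : h + -(t + h) = -t := by ring
      rw [e2, ← smul_neg]
      congr 1
      abel
    have e3 : E h = h⁻¹ • ((fun t => W h (Z (t + h))) - Z) := by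
      funext t
      rw [hEt]
      rfl
    rw [e1, ← e3] at d3
    exact d3
  have hP2 : ∀ z : KK (Lp ℝ 2 μ), ‖P2 z‖ ≤ ‖z‖ := Pool.Agent.BEW.H88.norm_P2_le
  -- the error
  obtain ⟨ρ, hρ⟩ : ∃ ρ : ℝ → ℝ → ℝ, ρ = fun h t => ‖mh h t (y t) - m0 t (y t)‖ ^ 2 := ⟨_, rfl⟩
  have hρc : ∀ h, Continuous (ρ h) := by
    intro h
    rw [hρ, hmh, hm0]
    exact ((ml_cont hg hc h0 hK v y hvc hyc h).sub (s4 y hyc)).norm.pow 2
  have hρ0 : ∀ h t, 0 ≤ ρ h t := by
    intro h t
    rw [hρ]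
    exact sq_nonneg _
  have hρb : ∀ h t, ρ h t ≤ (2 * K * ‖y t‖) ^ 2 := by
    intro h t
    rw [hρ]
    apply pow_le_pow_left₀ (norm_nonneg _)
    refine (norm_sub_le _ _).trans ?_
    linarith [mnrm h t (y t), mnrm0 t (y t)]
  have hρl : ∀ t, Tendsto (fun h => ρ h t) (𝓝 0) (𝓝 0) := by
    intro t
    have h1 : Tendsto (fun h => ‖mh h t (y t) - m0 t (y t)‖ ^ 2) (𝓝 0)
        (𝓝 (‖m0 t (y t) - m0 t (y t)‖ ^ 2)) := by
      rw [hmh, hm0]
      exact (((s3 t (y t)).sub_const _).norm).pow 2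
    rw [sub_self, norm_zero, zero_pow two_ne_zero] at h1
    rw [hρ]
    exact h1
  have hρi : ∀ t, Tendsto (fun h => ∫ s in (0 : ℝ)..t, ρ h s) (𝓝[≠] 0) (𝓝 0) := by
    intro t
    have h1 : Tendsto (fun h => ∫ s in (0 : ℝ)..t, ρ h s) (𝓝 0) (𝓝 (∫ s in (0 : ℝ)..t, (0 : ℝ))) := by
      apply intervalIntegral.tendsto_integral_filter_of_dominated_convergence
        (fun s => (2 * K * ‖y s‖) ^ 2)
      · exact Eventually.of_forall fun h => (hρc h).aestronglyMeasurable
      · refine Eventually.of_forall fun h => Eventually.of_forall fun s _ => ?_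
        rw [Real.norm_eq_abs, abs_of_nonneg (hρ0 h s)]
        exact hρb h s
      · exact Continuous.intervalIntegrable (by fun_prop) _ _
      · exact Eventually.of_forall fun s _ => hρl s
    rw [intervalIntegral.integral_zero] at h1
    exact h1.mono_left nhdsWithin_le_nhds
  -- the energy inequality
  have hN : ∀ h t, ‖E h t - Y t‖ ^ 2 ≤
      Real.exp ((2 * K + 1) * |t|) * (‖E h 0 - Y 0‖ ^ 2 + |∫ s in (0 : ℝ)..t, ρ h s|) := by
    intro h t
    have hd : ∀ t, HasDerivAt (fun t => ‖E h t - Y t‖ ^ 2)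
        (2 * ⟪E h t - Y t, -(W (-t) (inj (mh h t (P2 (W t (E h t)))))) -
          -(W (-t) (inj (m0 t (y t))))⟫_ℝ) t := fun t => ((hEd h t).sub (hYe t)).norm_sq
    refine gron2 (N := fun t => ‖E h t - Y t‖ ^ 2) (by positivity) hd (hρc h) (hρ0 h) ?_ t
    intro s
    have e1 : -(W (-s) (inj (mh h s (P2 (W s (E h s)))))) - -(W (-s) (inj (m0 s (y s)))) =
        -(W (-s) (inj (mh h s (P2 (W s (E h s - Y s))) + (mh h s (y s) - m0 s (y s))))) := by
      have e2 : P2 (W s (E h s)) = P2 (W s (E h s - Y s)) + y s := by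
        rw [map_sub, map_sub, hyt, sub_add_cancel]
      have e4 : ∀ A B C : Lp ℝ 2 μ, -(W (-s) (inj (A + B))) - -(W (-s) (inj C)) =
          -(W (-s) (inj (A + (B - C)))) := by
        intro A B C
        simp only [map_add, map_sub]
        abel
      rw [e2, madd]
      exact e4 _ _ _
    rw [e1, abs_mul, abs_two]
    have h1 : |⟪E h s - Y s, -(W (-s) (inj (mh h s (P2 (W s (E h s - Y s))) +
        (mh h s (y s) - m0 s (y s)))))⟫_ℝ| ≤ ‖E h s - Y s‖ * ‖mh h s (P2 (W s (E h s - Y s))) +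
        (mh h s (y s) - m0 s (y s))‖ := by
      refine (abs_real_inner_le_norm _ _).trans (le_of_eq ?_)
      rw [norm_neg, hWn, hinn]
    have h2 : ‖mh h s (P2 (W s (E h s - Y s))) + (mh h s (y s) - m0 s (y s))‖ ≤
        K * ‖E h s - Y s‖ + ‖mh h s (y s) - m0 s (y s)‖ := by
      refine (norm_add_le _ _).trans (add_le_add ?_ le_rfl)
      refine (mnrm h s _).trans (mul_le_mul_of_nonneg_left ?_ K.2)
      refine (hP2 _).trans (le_of_eq (hWn _ _))
    have h3 : ρ h s = ‖mh h s (y s) - m0 s (y s)‖ ^ 2 := by rw [hρ]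
    rw [h3]
    have h4 := mul_le_mul_of_nonneg_left h2 (norm_nonneg (E h s - Y s))
    nlinarith [sq_nonneg (‖E h s - Y s‖ - ‖mh h s (y s) - m0 s (y s)‖)]
  -- the initial value
  have jt : ∀ (zf : ℝ → KK (Lp ℝ 2 μ)) (z : KK (Lp ℝ 2 μ)), Tendsto zf (𝓝[≠] 0) (𝓝 z) →
      Tendsto (fun h => W h (zf h)) (𝓝[≠] 0) (𝓝 z) := by
    intro zf z hz
    have h1 : Tendsto (fun h => W h (zf h - z)) (𝓝[≠] 0) (𝓝 0) := by
      rw [tendsto_zero_iff_norm_tendsto_zero]
      have h2 : Tendsto (fun h => ‖zf h - z‖) (𝓝[≠] 0) (𝓝 0) :=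
        tendsto_iff_norm_sub_tendsto_zero.1 hz
      refine h2.congr fun h => ?_
      rw [hWn]
    have h2 : Tendsto (fun h => W h z) (𝓝[≠] 0) (𝓝 z) := by
      have h3 := (hWc z).tendsto 0
      rw [hW0] at h3
      exact h3.mono_left nhdsWithin_le_nhds
    have h3 := h1.add h2
    rw [zero_add] at h3
    refine h3.congr fun h => ?_
    rw [← map_add, sub_add_cancel]
  have hE0 : Tendsto (fun h => E h 0) (𝓝[≠] 0) (𝓝 (Y 0)) := by
    have h1 := jt _ _ (hasDerivAt_iff_tendsto_slope_zero.1 (hZe 0))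
    have h2 := hasDerivAt_iff_tendsto_slope_zero.1 hA
    have h3 := h1.add h2
    rw [← hz0, ← hY0] at h3
    refine h3.congr fun h => ?_
    rw [hEt, map_smul, map_sub, hZ0, zero_add, hW0, ← smul_add]
    congr 1
    abel
  have hEl : ∀ t, Tendsto (fun h => E h t) (𝓝[≠] 0) (𝓝 (Y t)) := by
    intro t
    rw [tendsto_iff_norm_sub_tendsto_zero]
    have h1 : Tendsto (fun h => Real.exp ((2 * K + 1) * |t|) *
        (‖E h 0 - Y 0‖ ^ 2 + |∫ s in (0 : ℝ)..t, ρ h s|)) (𝓝[≠] 0)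
        (𝓝 (Real.exp ((2 * K + 1) * |t|) * (0 ^ 2 + |(0 : ℝ)|))) :=
      (((tendsto_iff_norm_sub_tendsto_zero.1 hE0).pow 2).add (hρi t).abs).const_mul _
    rw [zero_pow two_ne_zero, abs_zero, add_zero, mul_zero] at h1
    have h2 : Tendsto (fun h => ‖E h t - Y t‖ ^ 2) (𝓝[≠] 0) (𝓝 0) :=
      squeeze_zero (fun h => sq_nonneg _) (fun h => hN h t) h1
    have h3 := (Real.continuous_sqrt.tendsto 0).comp h2
    rw [Real.sqrt_zero] at h3
    refine h3.congr fun h => ?_
    simp only [Function.comp_apply]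
    exact Real.sqrt_sq (norm_nonneg _)
  refine ⟨fun t => W t (Y t), hWcc Y hYc, fun t => ?_⟩
  rw [hasDerivAt_iff_tendsto_slope_zero]
  refine (((W t).continuous.tendsto _).comp (hEl t)).congr fun h => ?_
  simp only [Function.comp_apply]
  exact hWE h t

end

end Pool.Agent.BEW.H25F
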