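import Pool.Agent.BEW.StmtsF
import Pool.Agent.Helper33_BEL.GRP
import Pool.Agent.Helper39_BEL.GRQ
import Pool.Agent.Helper68_BEL.FLE
import Pool.Agent.Helper89_BEL.COO
import Pool.Agent.Helper47_BEL.NEM
import Pool.Agent.Helper29_BEL.GLP
import Pool.Agent.Helper17_BEL.GPK

set_option autoImplicit false

/-!
# Row MSO: strong solutions in modes (helper25)
-/

namespace Pool.Agent.BEW.H25M

open Set Filter Topology MeasureTheory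
open scoped InnerProductSpace ENNReal NNReal
open Pool.Agent.BE01 Pool.Agent.BEL Pool.Agent.BEG Pool.Agent.BEH Pool.Agent.BER Pool.Agent.BEW

noncomputable section

/-- A limit in `L²` of functions bounded by `1` is bounded by `1`. -/
lemma bd_lim {X : Type} [MeasurableSpace X] {μ : Measure X} (f : ℕ → Lp ℝ 2 μ) (g : Lp ℝ 2 μ)
    (h : Tendsto f atTop (𝓝 g)) (hb : ∀ n, 1 ≤ n → ∀ᵐ x ∂μ, |f n x| ≤ 1) :
    ∀ᵐ x ∂μ, |g x| ≤ 1 := by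
  have h1 : TendstoInMeasure μ (fun n => (f n : X → ℝ)) atTop g :=
    tendstoInMeasure_of_tendsto_Lp h
  obtain ⟨ns, hns, hae⟩ := h1.exists_seq_tendsto_ae
  have h2 : ∀ᵐ x ∂μ, ∀ n, 1 ≤ n → |f n x| ≤ 1 := by
    rw [ae_all_iff]
    intro n
    by_cases hn : 1 ≤ n
    · filter_upwards [hb n hn] with x hx _
      exact hx
    · filter_upwards with x hx
      exact absurd hx hn
  filter_upwards [hae, h2] with x hx hx2
  apply le_of_tendsto hx.abs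
  filter_upwards [hns.tendsto_atTop.eventually_ge_atTop 1] with i hi
  exact hx2 (ns i) hi

theorem mso (glx : GlxStmt) (gcn : GcnStmt) (frc : FrcStmt) : MsoStmt := by
  intro X _ μ _ e bb om al e0 B m0 c C hal hfrq hons hb hyp
  obtain ⟨W, hW⟩ := Pool.Agent.BEL.H33.grp (Lp ℝ 2 μ) ℕ e om
  obtain ⟨hgd, hglip, hgm, hg0, hgs, -, -, hgf, -⟩ := Pool.Agent.BEL.H29.glp 1 al one_pos hal
  have hlip := hglip 1 zero_le_one
  have hqlc : Continuous (ql 1 al 1) := Pool.Agent.BEL.H29.ql_cont hal 1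
  have hq0 : ∀ s, 0 ≤ ql 1 al 1 s := fun s =>
    Pool.Agent.BEL.H29.ql_nonneg one_pos hal zero_le_one s
  obtain ⟨K, hK⟩ : ∃ K : ℝ≥0, K = Real.toNNReal (1 * (al + 1) * 1 ^ al) := ⟨_, rfl⟩
  rw [← hK] at hlip
  have hqK : ∀ s, ql 1 al 1 s ≤ K := by
    intro s
    have h1 := norm_deriv_le_of_lipschitz (x₀ := s) hlip
    rw [(hgd 1 s zero_le_one).deriv, Real.norm_eq_abs, abs_of_nonneg (hq0 s)] at h1
    exact h1
  obtain ⟨hnae, hnl, hn0, hnin, -, hnm⟩ :=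
    Pool.Agent.BEL.H47.nem X μ (gl 1 al 1) K hlip (hg0 1)
  obtain ⟨Z, hZ⟩ := Pool.Agent.BEL.H68.fle Pool.Agent.BEL.H39.grq (Lp ℝ 2 μ) ℕ e om W
    (nem μ (gl 1 al 1)) K (inj (e0 • e 0)) hW hnl
  obtain ⟨Y, hYc, hY⟩ := frc X μ e om W (gl 1 al 1) (ql 1 al 1) K e0 Z hW
    (fun s => hgd 1 s zero_le_one) hqlc hq0 hqK (hg0 1) hZ
  have hcoo := fun k t => Pool.Agent.BEL.H89.coo (Lp ℝ 2 μ) ℕ e om W _ _ Z k t hW hZ
  have hWc : ∀ (t : ℝ) (z : KK (Lp ℝ 2 μ)), ‖W t z‖ = ‖z‖ :=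
    (Pool.Agent.BEL.H39.grq (Lp ℝ 2 μ) ℕ e om W hW).2.2.1
  have hglx : ∀ n : ℕ, 1 ≤ n → ∃ (Zn : ℝ → KK (Lp ℝ 2 μ)) (p v : ℕ → ℝ → ℝ),
      IsFl W (fun u => PJ e (Finset.range n) (nem μ (gl 1 al 1) u)) (inj (e0 • e 0)) Zn ∧
      Gal μ bb om n al p v ∧
      (∀ k t, ⟪e k, P1 (W t (Zn t))⟫_ℝ = p k t ∧ ⟪e k, P2 (W t (Zn t))⟫_ℝ = v k t) ∧
      (∀ k, n ≤ k → ∀ t, p k t = 0 ∧ v k t = 0) ∧
      (∀ k, p k 0 = 0) ∧ v 0 0 = e0 ∧ (∀ k, 1 ≤ k → v k 0 = 0) ∧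
      (∀ t, ((P2 (W t (Zn t)) : Lp ℝ 2 μ) : X → ℝ) =ᵐ[μ] vel bb (Finset.range n) v t) ∧
      ∀ t, ‖P1 (W t (Zn t))‖ ^ 2 + ‖P2 (W t (Zn t))‖ ^ 2 = R2 p v t + F2 n p v t :=
    fun n hn => glx X μ e bb om W al e0 B m0 n hal hW hons hb hn
  choose! Zn p v hZn hgal hcf hzz hp0 hv0 hvk0 hae hen using hglx
  have hcn : ∀ t, 0 ≤ t → Tendsto (fun n => Zn n t) atTop (𝓝 (Z t)) :=
    gcn (Lp ℝ 2 μ) e om W (nem μ (gl 1 al 1)) K e0 Z Zn hW hnl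
      (hnm (hgm 1 zero_le_one)) hn0 hZ hZn
  have hcW : ∀ t, 0 ≤ t → Tendsto (fun n => W t (Zn n t)) atTop (𝓝 (W t (Z t))) :=
    fun t ht => ((W t).continuous.tendsto _).comp (hcn t ht)
  have hc1 : ∀ t, 0 ≤ t → Tendsto (fun n => P1 (W t (Zn n t))) atTop (𝓝 (P1 (W t (Z t)))) :=
    fun t ht => (P1.continuous.tendsto _).comp (hcW t ht)
  have hc2 : ∀ t, 0 ≤ t → Tendsto (fun n => P2 (W t (Zn n t))) atTop (𝓝 (P2 (W t (Z t)))) :=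
    fun t ht => (P2.continuous.tendsto _).comp (hcW t ht)
  have hhyp : ∀ n, 1 ≤ n → ∀ t, 0 ≤ t →
      c * (1 + t) ^ (-(2 / al)) ≤ R2 (p n) (v n) t ∧
      R2 (p n) (v n) t + F2 n (p n) (v n) t ≤ C * (1 + t) ^ (-(2 / al)) ∧
      ∀ x, |vel bb (Finset.range n) (v n) t x| ≤ 1 := fun n hn =>
    hyp n (p n) (v n) hn (hgal n hn) (fun k _ => hp0 n hn k) (hv0 n hn)
      (fun k _ hk => hvk0 n hn k hk)
  have hbd : ∀ t, 0 ≤ t → ∀ᵐ x ∂μ, |(P2 (W t (Z t)) : Lp ℝ 2 μ) x| ≤ 1 := by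
    intro t ht
    apply bd_lim (fun n => P2 (W t (Zn n t))) _ (hc2 t ht)
    intro n hn
    filter_upwards [hae n hn t] with x hx
    rw [hx]
    exact (hhyp n hn t ht).2.2 x
  refine ⟨fun t => P1 (W t (Z t)), fun t => P2 (W t (Z t)), fun t => P1 (Y t),
    fun t => P2 (Y t), ⟨?_, ?_, ?_, ?_, ?_, ?_, hbd⟩, ?_⟩
  · intro t
    exact (P1 (H := Lp ℝ 2 μ)).hasFDerivAt.comp_hasDerivAt t (hY t)
  · intro t
    exact (P2 (H := Lp ℝ 2 μ)).hasFDerivAt.comp_hasDerivAt t (hY t)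
  · exact P1.continuous.comp hYc
  · exact P2.continuous.comp hYc
  · intro k t
    have h1 : HasDerivAt (fun t => ⟪e k, P1 (W t (Z t))⟫_ℝ) (⟪e k, P1 (Y t)⟫_ℝ) t :=
      (innerSL ℝ (e k)).hasFDerivAt.comp_hasDerivAt t
        ((P1 (H := Lp ℝ 2 μ)).hasFDerivAt.comp_hasDerivAt t (hY t))
    exact h1.unique (hcoo k t).1
  · intro k t ht
    have h1 : HasDerivAt (fun t => ⟪e k, P2 (W t (Z t))⟫_ℝ) (⟪e k, P2 (Y t)⟫_ℝ) t :=
      (innerSL ℝ (e k)).hasFDerivAt.comp_hasDerivAt t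
        ((P2 (H := Lp ℝ 2 μ)).hasFDerivAt.comp_hasDerivAt t (hY t))
    have h2 := h1.unique (hcoo k t).2
    have h3 : ⟪e k, nem μ (gl 1 al 1) (P2 (W t (Z t)))⟫_ℝ =
        ∫ x, gf 1 al ((P2 (W t (Z t)) : Lp ℝ 2 μ) x) * e k x ∂μ := by
      rw [real_inner_comm, hnin]
      apply integral_congr_ae
      filter_upwards [hbd t ht] with x hx
      rw [hgf 1 _ hx]
    rw [h2, h3]
    ring
  · intro t ht
    have h1 : Tendsto (fun n => ‖P1 (W t (Zn n t))‖ ^ 2 + ‖P2 (W t (Zn n t))‖ ^ 2) atTop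
        (𝓝 (‖P1 (W t (Z t))‖ ^ 2 + ‖P2 (W t (Z t))‖ ^ 2)) :=
      ((hc1 t ht).norm.pow 2).add ((hc2 t ht).norm.pow 2)
    constructor
    · apply ge_of_tendsto h1
      filter_upwards [eventually_ge_atTop 1] with n hn
      rw [hen n hn t]
      have h2 : 0 ≤ F2 n (p n) (v n) t := Finset.sum_nonneg fun k _ => by positivity
      linarith [(hhyp n hn t ht).1]
    · apply le_of_tendsto h1
      filter_upwards [eventually_ge_atTop 1] with n hn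
      rw [hen n hn t]
      exact (hhyp n hn t ht).2.1

end

end Pool.Agent.BEW.H25M
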