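import Pool.Agent.Helper25_BEW.PartD
import Pool.Agent.Helper76_BEW.FRW
import Pool.Agent.Helper24_BEW.GLX
import Pool.Agent.Helper34_BEW.GCN
import Pool.Agent.Helper28_BEW.SLO
import Pool.Agent.Helper88_BEW.LNF
import Pool.Agent.Helper77_BEW.NUF
import Pool.Agent.Helper49_BEW.SBS
import Pool.Agent.Helper42_BEW.OPB
import Pool.Agent.Helper89_BEW.PTA
import Pool.Agent.Helper88_BEW.PTB
import Pool.Agent.Helper70_BEW.REP
import Pool.Agent.Helper63_BEW.NRB
import Pool.Agent.Helper49_BEW.SIN
import Pool.Agent.Helper62_BEW.PKG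
import Pool.Agent.Helper21_BEW.POL
import Pool.Agent.Helper27_BEW.RLP
import Pool.Agent.Helper66_BEW.RSM
import Pool.Agent.Helper13_BEW.EIG
import Pool.Agent.Helper65_BEW.GRD
import Pool.Agent.Helper20_BEW.SLA
import Pool.Agent.Helper16_BEW.THS
import Pool.Agent.Helper39_BEW.DSC
import Pool.Agent.Helper30_BEW.THF
import Pool.Agent.Helper29_BER.RWD
import Pool.Agent.Helper88_BER.RHD
import Pool.Agent.Helper62_BES.GCF
import Pool.Agent.Helper19_BEO.WEO

/-!
# Squad BEW, parts F, S, P composed (helper25)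
-/

set_option autoImplicit false

namespace Pool.Agent.BEW.H25

open Pool.Agent.BEW

theorem frw : FrwStmt := H76.frw bsl der rot
theorem lvz : LvzStmt := lvzU frw
theorem lvo : LvoStmt := lvoU frw
theorem lvd : LvdStmt := lvdU frw
theorem cst : CstStmt := cstU frw
theorem dyn : DynStmt := dynU frw

theorem glx : GlxStmt := H24.glx
theorem gcn : GcnStmt := H34.gcn
theorem slo : SloStmt := H28.slo
theorem lnf : LnfStmt := H88.lnf slo

theorem nuf : NufStmt := H77.nuf
theorem sbs : SbsStmt := H49.sbs nuf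
theorem opb : OpbStmt := H42.opb nuf
theorem pta : PtaStmt := H89.pta
theorem ptb : PtbStmt := H88.ptb pta
theorem rep : RepStmt := H70.rep nuf
theorem nrb : NrbStmt := H63.nrb
theorem sin_row : SinStmt := H49.sin_row
theorem pkg : PkgStmt := H62.pkg sin_row mcr nuf

theorem pol : PolStmt := H21.pol nuf
theorem rlp : RlpStmt := H27.rlp
theorem rwd : Pool.Agent.BER.RwdStmt := Pool.Agent.BER.H29.rwd
theorem rhd : Pool.Agent.BER.RhdStmt := Pool.Agent.BER.H88.rhd Pool.Agent.BES.H62.gcf
theorem rsm : RsmStmt := H66.rsm rlp rwd rhd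
theorem eig : EigStmt := H13.eig rsm Pool.Agent.BEO.H19.weo
theorem grd : GrdStmt := H65.grd Pool.Agent.BEO.H19.weo
theorem sla : SlaStmt := H20.sla grd
theorem dsc : DscStmt := H39.dsc

/-- Thin shells, from the rows DAT and MSO. -/
theorem thsU (dat : DatStmt) (mso : MsoStmt) : ThsStmt :=
  H16.ths nuf dyn avg pkg dat mso eig pol sla

/-- The theorem, from the rows DAT and MSO. -/
theorem thfU (dat : DatStmt) (mso : MsoStmt) : ThfStmt := H30.thf (thsU dat mso) dsc

end Pool.Agent.BEW.H25
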