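import Pool.Agent.Helper25_BEW.Fun
import Pool.Agent.Helper25_BEW.PartS
import Pool.Agent.Helper25_BEW.MSO
import Pool.Agent.Helper25_BEW.FRC
import Pool.Agent.Helper43_BEW.DAT

/-!
# Squad BEW composed (helper25): every real power, thin shells
-/

set_option autoImplicit false

namespace Pool.Agent.BEW.H25

open Pool.Agent.BEW

theorem frc : FrcStmt := H25F.frc slo lnf
theorem mso : MsoStmt := H25M.mso glx gcn frc
theorem dat : DatStmt := H43.dat sbs opb ptb rep nrb
theorem thf : ThfStmt := thfU dat mso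

/-- MAIN THEOREM: for every `d ≥ 2` and every real `α > 0` there is `κ > 0` such that every shell
`r < |x| < R`, `R ≤ (1 + κ) r`, of `ℝ^d` and every `a > 0` have the sharp rate. -/
theorem thin_all (d : ℕ) (hd : 2 ≤ d) (α : ℝ) (hα : 0 < α) :
    ∃ κ : ℝ, 0 < κ ∧ ∀ r R a : ℝ, 0 < r → r < R → R ≤ (1 + κ) * r → 0 < a →
      Pool.Agent.BE01F.SharpRate {y : EuclideanSpace ℝ (Fin d) | r < ‖y‖ ∧ ‖y‖ < R} a α :=
  thin thf d hd α hα

end Pool.Agent.BEW.H25
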