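import Pool.Agent.Helper22_BEC.All
import Pool.Agent.Helper70_BE01.Conv
import Pool.Agent.BEW.StmtsP

/-!
# Squad BEW: every real power `α > 0`, thin shells, formulated with functions
-/

set_option autoImplicit false

namespace Pool.Agent.BEW.H25

open Pool.Agent Pool.Agent.BEW

/-- For `d ≥ 2` and every real `α > 0` there is `κ > 0` such that every shell `r < |x| < R` of `ℝ^d` with
`R ≤ (1 + κ) r` has, for every `a > 0`, a strong solution with the sharp rate. -/
theorem thin (thf : ThfStmt) (d : ℕ) (hd : 2 ≤ d) (α : ℝ) (hα : 0 < α) :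
    ∃ κ : ℝ, 0 < κ ∧ ∀ r R a : ℝ, 0 < r → r < R → R ≤ (1 + κ) * r → 0 < a →
      BE01F.SharpRate {y : BE01F.E d | r < ‖y‖ ∧ ‖y‖ < R} a α := by
  by_cases h3 : d = 3
  · subst h3
    exact ⟨1, one_pos, fun r R a hr hR _ ha => Pool.Agent.BEC.All.shr r R a α hr hR ha hα⟩
  · obtain ⟨κ, hκ, h⟩ := thf d α hd h3 hα
    exact ⟨κ, hκ, fun r R a hr hR hk ha => Helper70BE01Conv.sharp_of (h r R a hr hR hk ha)⟩

end Pool.Agent.BEW.H25
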