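import Pool.Agent.Helper47_BEW.TAY
import Pool.Agent.Helper72_BEW.LIF
import Pool.Agent.Helper36_BEW.BSL
import Pool.Agent.Helper89_BEW.DER
import Pool.Agent.Helper11_BEW.BOO
import Pool.Agent.Helper8_BEW.ROT
import Pool.Agent.Helper13_BEW.LVZ
import Pool.Agent.Helper6_BEW.LVO
import Pool.Agent.Helper40_BEW.LVD
import Pool.Agent.Helper75_BEW.CST
import Pool.Agent.Helper95_BEW.SEQ
import Pool.Agent.Helper66_BEW.DYN
import Pool.Agent.Helper10_BEW.TPA
import Pool.Agent.Helper58_BEW.APE
import Pool.Agent.Helper39_BEW.AFB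
import Pool.Agent.Helper59_BEW.AQF
import Pool.Agent.Helper60_BEW.MCR
import Pool.Agent.Helper16_BEW.AVG

/-!
# Squad BEW, parts D and A composed (helper25)
-/

set_option autoImplicit false

namespace Pool.Agent.BEW.H25

open Pool.Agent.BEW

theorem tay : TayStmt := H47.tay
theorem lif : LifStmt := H72.lif
theorem bsl : BslStmt := H36.bsl
theorem der : DerStmt := H89.der
theorem boo : BooStmt := H11.boo lif bsl der
theorem rot : RotStmt := H8.rot
theorem seq : SeqStmt := H95.seq
theorem lvzU (frw : FrwStmt) : LvzStmt := H13.lvz tay der frw bsl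
theorem lvoU (frw : FrwStmt) : LvoStmt := H6.lvo tay der frw bsl
theorem lvdU (frw : FrwStmt) : LvdStmt := H40.lvd tay der frw bsl
theorem cstU (frw : FrwStmt) : CstStmt := H75.cst lif boo (lvzU frw) (lvoU frw) (lvdU frw)
theorem dynU (frw : FrwStmt) : DynStmt := H66.dyn bsl (cstU frw) seq
theorem tpa : TpaStmt := H10.tpa
theorem ape : ApeStmt := H58.ape
theorem afb : AfbStmt := H39.afb tpa bsl
theorem aqf : AqfStmt := H59.aqf tpa bsl
theorem mcr : McrStmt := H60.mcr
theorem avg : AvgStmt := H16.avg ape afb aqf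

end Pool.Agent.BEW.H25
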